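import Mathlib
import Pool.Agent.Helper974.StarP.Cert1

set_option autoImplicit false

namespace Pool.Agent.Helper974.StarP.Cert

open Complex Filter Topology Metric Set Pool.Agent.Helper974.StarP.Sigma

/-- half of the denominator of the Pick function -/
noncomputable def DD (t : ℝ) (z : ℂ) : ℂ := (1 - z + sg t z) / 2

/-- `log (f_P z / z)` for the Pick function. -/
noncomputable def gP (t : ℝ) (z : ℂ) : ℂ := -2 * Complex.log (DD t z)

lemma DD_re_pos {t : ℝ} (h0 : 0 < t) (h1 : t < 1) {z : ℂ} (hz : ‖z‖ ≤ 1) : 0 < (DD t z).re := by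
  have hs := sg_re t hz
  have h2 : z.re ≤ 1 := (Complex.re_le_norm z).trans hz
  have h3 : (DD t z).re = (1 - z.re + (sg t z).re) / 2 := by
    unfold DD
    have : (1 - z + sg t z) / 2 = ((1 / 2 : ℝ) : ℂ) * (1 - z + sg t z) := by push_cast; ring
    rw [this, Complex.re_ofReal_mul]
    simp
    ring
  rw [h3]
  rcases h2.lt_or_eq with h | h
  · linarith
  · -- z = 1
    have hz1 : z = 1 := by
      have h4 : z.re ^ 2 + z.im ^ 2 ≤ 1 := by
        have := Complex.sq_norm z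
        rw [Complex.normSq_apply] at this
        nlinarith [norm_nonneg z]
      have h5 : z.im = 0 := by
        rw [h] at h4
        nlinarith
      apply Complex.ext <;> simp [h, h5]
    subst hz1
    have h5 : sg t 1 ^ 2 = ((4 * t : ℝ) : ℂ) := by
      rw [sg_sq h0.le h1.le]; push_cast; ring
    have h6 : 0 < (sg t 1).re := by
      rcases hs.lt_or_eq with h7 | h7
      · exact h7
      · exfalso
        have h8 : (sg t 1 ^ 2).re = 4 * t := by rw [h5, Complex.ofReal_re]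
        rw [pow_two, Complex.mul_re, ← h7] at h8
        nlinarith [mul_self_nonneg (sg t 1).im]
    simp at h ⊢
    linarith

lemma DD_zero (t : ℝ) : DD t 0 = 1 := by unfold DD; rw [sg_zero]; norm_num

lemma gP_zero (t : ℝ) : gP t 0 = 0 := by unfold gP; rw [DD_zero]; simp

lemma DD_diffAt (t : ℝ) {z : ℂ} (hz : ‖z‖ < 1) : DifferentiableAt ℂ (DD t) z := by
  unfold DD
  have := sg_diffAt t hz
  fun_prop

lemma gP_diffAt {t : ℝ} (h0 : 0 < t) (h1 : t < 1) {z : ℂ} (hz : ‖z‖ < 1) :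
    DifferentiableAt ℂ (gP t) z := by
  unfold gP
  apply DifferentiableAt.const_mul
  exact (DD_diffAt t hz).clog (Or.inl (DD_re_pos h0 h1 hz.le))

lemma gP_contOn {t : ℝ} (h0 : 0 < t) (h1 : t < 1) : ContinuousOn (gP t) (closedBall 0 1) := by
  unfold gP
  apply ContinuousOn.mul continuousOn_const
  apply ContinuousOn.clog
  · unfold DD
    have := sg_contOn t
    fun_prop
  · intro z hz
    exact Or.inl (DD_re_pos h0 h1 (by simpa using hz))

lemma gP_dcc {t : ℝ} (h0 : 0 < t) (h1 : t < 1) : DiffContOnCl ℂ (gP t) (ball 0 1) := by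
  constructor
  · intro z hz
    exact (gP_diffAt h0 h1 (by simpa using hz)).differentiableWithinAt
  · rw [closure_ball _ (by norm_num)]
    exact gP_contOn h0 h1

lemma DD_hasDeriv {t : ℝ} {z : ℂ} (hz : ‖z‖ < 1) :
    HasDerivAt (DD t) ((-1 + deriv (sg t) z) / 2) z := by
  unfold DD
  have h := (((hasDerivAt_id z).const_sub 1).add (sg_diffAt t hz).hasDerivAt).div_const 2
  exact h

lemma gP_hasDeriv {t : ℝ} (h0 : 0 < t) (h1 : t < 1) {z : ℂ} (hz : ‖z‖ < 1) :
    HasDerivAt (gP t) (-2 * (((-1 + deriv (sg t) z) / 2) / DD t z)) z := by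
  unfold gP
  exact ((DD_hasDeriv hz).clog (Or.inl (DD_re_pos h0 h1 hz.le))).const_mul (-2)

lemma gP_hasDeriv0 {t : ℝ} (h0 : 0 < t) (h1 : t < 1) : HasDerivAt (gP t) (2 * (1 - t)) 0 := by
  have h := gP_hasDeriv h0 h1 (z := 0) (by simp)
  rw [DD_zero, (sg_hasDeriv0 h0.le h1.le).deriv] at h
  convert! h using 1
  ring

lemma gP_hasDeriv2 {t : ℝ} (h0 : 0 < t) (h1 : t < 1) :
    HasDerivAt (deriv (gP t)) (2 * (1 - t) * (1 - 3 * t)) 0 := by
  have e : deriv (gP t) =ᶠ[𝓝 0] fun z => -2 * (((-1 + deriv (sg t) z) / 2) / DD t z) := by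
    filter_upwards [sg_ne_nhds t] with z hz
    exact (gP_hasDeriv h0 h1 hz.2).deriv
  have a1 := ((sg_hasDeriv2 h0.le h1.le).const_add (-1)).div_const 2
  have a2 := a1.div (DD_hasDeriv (t := t) (z := 0) (by simp)) (by rw [DD_zero]; norm_num)
  have a3 := (a2.const_mul (-2)).congr_of_eventuallyEq e
  convert! a3 using 1
  rw [DD_zero, (sg_hasDeriv0 h0.le h1.le).deriv]
  ring

/-- near arc: real part of `gP` -/
lemma gP_near {t : ℝ} (h0 : 0 < t) (h1 : t < 1) {θ : ℝ} (hv : Real.sin (θ / 2) ^ 2 ≤ t) :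
    (gP t (Complex.exp (I * θ))).re = -Real.log t := by
  have hcos : Real.cos (θ / 2) ≠ 0 := by
    intro h
    have := Real.sin_sq_add_cos_sq (θ / 2)
    rw [h] at this
    nlinarith
  have key : ‖DD t (Complex.exp (I * θ))‖ ^ 2 = t := by
    have hsq : Real.sqrt (t - Real.sin (θ / 2) ^ 2) ^ 2 = t - Real.sin (θ / 2) ^ 2 :=
      Real.sq_sqrt (by linarith)
    have hE : ‖Complex.exp (I * (θ / 2 : ℝ))‖ = 1 := by
      rw [mul_comm, Complex.norm_exp_ofReal_mul_I]
    rcases lt_or_gt_of_ne hcos with hc | hc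
    · have e : DD t (Complex.exp (I * θ)) =
          ((-Real.sqrt (t - Real.sin (θ / 2) ^ 2) : ℝ) + (-Real.sin (θ / 2) : ℝ) * I) *
            Complex.exp (I * (θ / 2 : ℝ)) := by
        unfold DD
        rw [bd_one_sub θ, sg_bd_near' h0 h1 hv hc]
        push_cast
        ring
      rw [e, norm_mul, hE, mul_one, Complex.sq_norm, Complex.normSq_add_mul_I]
      rw [neg_sq, neg_sq, hsq]; ring
    · have e : DD t (Complex.exp (I * θ)) =
          ((Real.sqrt (t - Real.sin (θ / 2) ^ 2) : ℝ) + (-Real.sin (θ / 2) : ℝ) * I) *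
            Complex.exp (I * (θ / 2 : ℝ)) := by
        unfold DD
        rw [bd_one_sub θ, sg_bd_near h0 h1 hv hc]
        push_cast
        ring
      rw [e, norm_mul, hE, mul_one, Complex.sq_norm, Complex.normSq_add_mul_I]
      rw [neg_sq, hsq]; ring
  unfold gP
  have e1 : (-2 * Complex.log (DD t (Complex.exp (I * θ)))).re =
      -(2 * Real.log ‖DD t (Complex.exp (I * θ))‖) := by
    have : (-2 : ℂ) = ((-2 : ℝ) : ℂ) := by push_cast; ring
    rw [this, Complex.re_ofReal_mul, Complex.log_re]; ring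
  rw [e1]
  have e2 : 2 * Real.log ‖DD t (Complex.exp (I * θ))‖ = Real.log (‖DD t (Complex.exp (I * θ))‖ ^ 2) := by
    rw [Real.log_pow]; push_cast; ring
  rw [e2, key]

/-- far arc: imaginary part of `gP` -/
lemma gP_far {t : ℝ} (h0 : 0 < t) (h1 : t < 1) {θ : ℝ} (hθ0 : 0 ≤ θ) (hθ1 : θ ≤ 2 * Real.pi)
    (hv : t ≤ Real.sin (θ / 2) ^ 2) :
    (gP t (Complex.exp (I * θ))).im = Real.pi - θ := by
  have hs := sin_half_pos h0 hθ0 hθ1 hv
  set ρ : ℝ := Real.sin (θ / 2) + Real.sqrt (Real.sin (θ / 2) ^ 2 - t) with hρ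
  have hρ0 : 0 < ρ := by
    have := Real.sqrt_nonneg (Real.sin (θ / 2) ^ 2 - t)
    linarith
  have e : DD t (Complex.exp (I * θ)) = (ρ : ℂ) * Complex.exp (((θ / 2 - Real.pi / 2 : ℝ) : ℂ) * I) := by
    unfold DD
    rw [bd_one_sub θ, sg_bd_far h0 h1 hv hs]
    have h3 : Complex.exp (((θ / 2 - Real.pi / 2 : ℝ) : ℂ) * I) = -I * Complex.exp (I * (θ / 2 : ℝ)) := by
      have h4 : ((θ / 2 - Real.pi / 2 : ℝ) : ℂ) * I = -(Real.pi / 2 * I) + I * (θ / 2 : ℝ) := by
        push_cast; ring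
      rw [h4, Complex.exp_add, Complex.exp_neg, Complex.exp_pi_div_two_mul_I, Complex.inv_I]
    rw [h3, hρ]
    push_cast
    ring
  have hθp : 0 < θ := by
    rcases hθ0.lt_or_eq with h | h
    · exact h
    · rw [← h] at hs; simp at hs
  have hθl : θ < 2 * Real.pi := by
    rcases hθ1.lt_or_eq with h | h
    · exact h
    · rw [h] at hs
      rw [show 2 * Real.pi / 2 = Real.pi by ring, Real.sin_pi] at hs
      exact absurd hs (lt_irrefl _)
  unfold gP
  have e1 : (-2 * Complex.log (DD t (Complex.exp (I * θ)))).im =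
      -(2 * Complex.arg (DD t (Complex.exp (I * θ)))) := by
    have : (-2 : ℂ) = ((-2 : ℝ) : ℂ) := by push_cast; ring
    rw [this, Complex.im_ofReal_mul, Complex.log_im]; ring
  rw [e1, e]
  have e2 : Complex.arg ((ρ : ℂ) * Complex.exp (((θ / 2 - Real.pi / 2 : ℝ) : ℂ) * I)) = θ / 2 - Real.pi / 2 := by
    rw [Complex.arg_real_mul _ hρ0, Complex.arg_exp_mul_I, toIocMod_eq_self]
    constructor
    · linarith [Real.pi_pos]
    · linarith [Real.pi_pos]
  rw [e2]
  ring

end Pool.Agent.Helper974.StarP.Cert
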