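import Mathlib
import Pool.Agent.Helper974.StarP.Cert3

set_option autoImplicit false

namespace Pool.Agent.Helper974.StarP.Cert

open Complex Filter Topology Metric Set Pool.Agent.Helper974.StarP.Sigma MeasureTheory

lemma circ_mem {r : ℝ} (hr0 : 0 < r) (hr1 : r < 1) (θ : ℝ) : (r : ℂ) * Complex.exp (I * θ) ∈ ball (0 : ℂ) 1 := by
  rw [mem_ball_zero_iff, norm_mul, mul_comm I, Complex.norm_exp_ofReal_mul_I, mul_one, Complex.norm_real,
    Real.norm_of_nonneg hr0.le]
  exact hr1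

lemma circ_norm {r : ℝ} (hr0 : 0 < r) (θ : ℝ) : ‖(r : ℂ) * Complex.exp (I * θ)‖ = r := by
  rw [norm_mul, mul_comm I, Complex.norm_exp_ofReal_mul_I, mul_one, Complex.norm_real,
    Real.norm_of_nonneg hr0.le]

lemma circ_hasDeriv (r θ : ℝ) : HasDerivAt (fun θ : ℝ => (r : ℂ) * Complex.exp (I * θ))
    (r * Complex.exp (I * θ) * I) θ := by
  have h1 : HasDerivAt (fun θ : ℝ => (I * (θ : ℂ))) I θ := by
    have := (Complex.ofRealCLM.hasDerivAt (x := θ)).const_mul I
    simpa using this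
  have h2 := (h1.cexp).const_mul (r : ℂ)
  convert! h2 using 1
  ring

/-- the angular function -/
noncomputable def Th (g : ℂ → ℂ) (r θ : ℝ) : ℝ := (g (r * Complex.exp (I * θ))).im + θ - Real.pi

noncomputable def Th' (g : ℂ → ℂ) (r θ : ℝ) : ℝ :=
  (1 + (r * Complex.exp (I * θ)) * deriv g (r * Complex.exp (I * θ))).re

lemma Th_hasDeriv {g : ℂ → ℂ} (hg : DifferentiableOn ℂ g (ball 0 1)) {r : ℝ} (hr0 : 0 < r) (hr1 : r < 1)
    (θ : ℝ) : HasDerivAt (Th g r) (Th' g r θ) θ := by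
  have hz := circ_mem hr0 hr1 θ
  have h1 : HasDerivAt g (deriv g (r * Complex.exp (I * θ))) (r * Complex.exp (I * θ)) :=
    (hg.differentiableAt (isOpen_ball.mem_nhds hz)).hasDerivAt
  have h2 := h1.comp θ (circ_hasDeriv r θ)
  have h3 := Complex.imCLM.hasFDerivAt.comp_hasDerivAt θ h2
  have h4 := (h3.add (hasDerivAt_id θ)).sub_const Real.pi
  unfold Th
  convert! h4 using 1
  unfold Th'
  simp
  ring

lemma Th'_cont {g : ℂ → ℂ} (hg : DifferentiableOn ℂ g (ball 0 1)) {r : ℝ} (hr0 : 0 < r) (hr1 : r < 1) :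
    Continuous (Th' g r) := by
  have h1 : ContinuousOn (deriv g) (ball 0 1) := (hg.deriv isOpen_ball).continuousOn
  have h2 : Continuous (fun θ : ℝ => (r : ℂ) * Complex.exp (I * θ)) := by fun_prop
  have h3 : Continuous (fun θ : ℝ => deriv g ((r : ℂ) * Complex.exp (I * θ))) :=
    h1.comp_continuous h2 (fun θ => circ_mem hr0 hr1 θ)
  unfold Th'
  exact Complex.continuous_re.comp (continuous_const.add (h2.mul h3))

lemma JTh_nonneg {t c : ℝ} (hG : 0 ≤ Gam t c 1) {g : ℂ → ℂ} (hg : DifferentiableOn ℂ g (ball 0 1))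
    (hstar : ∀ z ∈ ball (0 : ℂ) 1, 0 ≤ (1 + z * deriv g z).re) {r : ℝ} (hr0 : 0 < r) (hr1 : r < 1) :
    0 ≤ ∫ θ in (0 : ℝ)..2 * Real.pi, Th g r θ * JJ t c θ := by
  rw [intervalIntegral.integral_mul_deriv_eq_deriv_mul (u := Th g r) (v := QQ t c) (u' := Th' g r)
    (v' := JJ t c) (fun θ _ => Th_hasDeriv hg hr0 hr1 θ) (fun θ _ => QQ_hasDeriv t c θ)
    ((Th'_cont hg hr0 hr1).intervalIntegrable _ _) ((JJ_cont t c).intervalIntegrable _ _)]
  rw [QQ_zero, QQ_two_pi, mul_zero, mul_zero, sub_zero, zero_sub]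
  rw [← intervalIntegral.integral_neg]
  apply intervalIntegral.integral_nonneg (by positivity)
  intro θ hθ
  have h1 := QQ_nonpos hG hθ.1 hθ.2
  have h2 : 0 ≤ Th' g r θ := hstar _ (circ_mem hr0 hr1 θ)
  nlinarith

lemma intR {t : ℝ} (c : ℝ) (h0 : 0 < t) (h1 : t < 1) :
    ∫ θ in (0 : ℝ)..2 * Real.pi, RR t c θ = 2 * Real.pi * (2 * t * (2 - 2 * c - t)) := by
  have h := cauchy2 (hh_dcc t c)
  rw [(hh_hasDeriv2 c h0.le h1.le).deriv] at h
  have e : ∫ θ in (0 : ℝ)..2 * Real.pi, hh t c (Complex.exp (I * θ)) * Complex.exp (-(2 * (I * θ))) =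
      ∫ θ in (0 : ℝ)..2 * Real.pi, ((RR t c θ : ℂ) + (JJ t c θ : ℂ) * I) := by
    apply intervalIntegral.integral_congr
    intro θ hθ
    rw [Set.uIcc_of_le (by positivity)] at hθ
    exact hh_bd c h0 h1 hθ.1 hθ.2
  rw [e] at h
  have hint : IntervalIntegrable (fun θ => ((RR t c θ : ℂ) + (JJ t c θ : ℂ) * I)) volume 0 (2 * Real.pi) := by
    apply Continuous.intervalIntegrable
    have := RR_cont t c
    have := JJ_cont t c
    fun_prop
  have e2 := Complex.reCLM.intervalIntegral_comp_comm hint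
  rw [h] at e2
  have e3 : ∫ θ in (0 : ℝ)..2 * Real.pi, Complex.reCLM ((RR t c θ : ℂ) + (JJ t c θ : ℂ) * I) =
      ∫ θ in (0 : ℝ)..2 * Real.pi, RR t c θ := by
    apply intervalIntegral.integral_congr
    intro θ _
    simp
  rw [e3] at e2
  rw [e2]
  have e4 : (2 * (Real.pi : ℂ) * (2 * (2 * (t : ℂ) * (2 - 2 * (c : ℂ) - (t : ℂ))) / 2)) =
      ((2 * Real.pi * (2 * t * (2 - 2 * c - t)) : ℝ) : ℂ) := by push_cast; ring
  rw [e4]
  simp only [Complex.reCLM_apply, Complex.ofReal_re]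

lemma dil_dcc {g : ℂ → ℂ} (hg : DifferentiableOn ℂ g (ball 0 1)) {r : ℝ} (hr0 : 0 < r) (hr1 : r < 1) :
    DiffContOnCl ℂ (fun z => g (r * z)) (ball 0 1) := by
  apply DifferentiableOn.diffContOnCl
  rw [closure_ball _ (by norm_num)]
  apply hg.comp (by fun_prop)
  intro z hz
  rw [mem_closedBall_zero_iff] at hz
  rw [mem_ball_zero_iff, norm_mul, Complex.norm_real, Real.norm_of_nonneg hr0.le]
  nlinarith [norm_nonneg z]

lemma dil_hasDeriv {g : ℂ → ℂ} (hg : DifferentiableOn ℂ g (ball 0 1)) {r : ℝ} (hr0 : 0 < r) (hr1 : r < 1)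
    {z : ℂ} (hz : ‖z‖ < 1) : HasDerivAt (fun z => g (r * z)) (r * deriv g (r * z)) z := by
  have hz' : (r : ℂ) * z ∈ ball (0 : ℂ) 1 := by
    rw [mem_ball_zero_iff, norm_mul, Complex.norm_real, Real.norm_of_nonneg hr0.le]
    nlinarith [norm_nonneg z]
  have h1 : HasDerivAt g (deriv g (r * z)) (r * z) :=
    (hg.differentiableAt (isOpen_ball.mem_nhds hz')).hasDerivAt
  have h2 : HasDerivAt (fun z : ℂ => (r : ℂ) * z) r z := by
    simpa using (hasDerivAt_id z).const_mul (r : ℂ)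
  have h3 := h1.comp z h2
  convert! h3 using 1
  ring

lemma dil_hasDeriv2 {g : ℂ → ℂ} (hg : DifferentiableOn ℂ g (ball 0 1)) {r : ℝ} (hr0 : 0 < r) (hr1 : r < 1) :
    HasDerivAt (deriv (fun z => g (r * z))) (r ^ 2 * deriv (deriv g) 0) 0 := by
  have e : deriv (fun z => g (r * z)) =ᶠ[𝓝 0] fun z => r * deriv g (r * z) := by
    have := isOpen_ball.mem_nhds (show (0 : ℂ) ∈ ball (0 : ℂ) 1 by simp)
    filter_upwards [this] with z hz
    exact (dil_hasDeriv hg hr0 hr1 (by simpa using hz)).deriv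
  have h1 := dil_hasDeriv (hg.deriv isOpen_ball) hr0 hr1 (z := 0) (by simp)
  have h2 := (h1.const_mul (r : ℂ)).congr_of_eventuallyEq e
  convert! h2 using 1
  rw [mul_zero]
  ring

theorem cert_r {t c M : ℝ} (h0 : 0 < t) (h1 : t < 1) (hc : c ≤ 1 - 2 * t) (hG : 0 ≤ Gam t c 1)
    (hM : 0 < M) {g : ℂ → ℂ} (hg : DifferentiableOn ℂ g (ball 0 1)) (hg0 : g 0 = 0)
    (hstar : ∀ z ∈ ball (0 : ℂ) 1, 0 ≤ (1 + z * deriv g z).re)
    (hbd : ∀ z ∈ ball (0 : ℂ) 1, z ≠ 0 → (g z).re ≤ Real.log (M / ‖z‖))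
    {r : ℝ} (hr0 : 0 < r) (hr1 : r < 1) :
    (2 * ((t : ℂ) - c) * (r * deriv g 0 - 2 * (1 - t)) +
      (r ^ 2 * deriv (deriv g) 0 / 2 - (1 - t) * (1 - 3 * t))).re ≤
     2 * t * (2 - 2 * c - t) * Real.log (M * t / r) := by
  obtain ⟨G, hGdef⟩ : ∃ G : ℂ → ℂ, G = fun z => g (r * z) - gP t z := ⟨_, rfl⟩
  have hGdcc : DiffContOnCl ℂ G (ball 0 1) := by
    rw [hGdef]; exact (dil_dcc hg hr0 hr1).sub (gP_dcc h0 h1)
  have hF : DiffContOnCl ℂ (fun z => hh t c z * G z) (ball 0 1) := (hh_dcc t c).smul hGdcc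
  have hC := cauchy2 hF
  -- second derivative
  have hG0 : G 0 = 0 := by rw [hGdef]; simp [hg0, gP_zero]
  have hG1 : HasDerivAt G (r * deriv g 0 - 2 * (1 - t)) 0 := by
    have := (dil_hasDeriv hg hr0 hr1 (z := 0) (by simp)).sub (gP_hasDeriv0 h0 h1)
    rw [mul_zero] at this
    rw [hGdef]
    exact this
  have hball : ∀ᶠ z in 𝓝 (0 : ℂ), ‖z‖ < 1 := (sg_ne_nhds t).mono fun z hz => hz.2
  have hG2 : HasDerivAt (deriv G) (r ^ 2 * deriv (deriv g) 0 - 2 * (1 - t) * (1 - 3 * t)) 0 := by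
    have e : deriv G =ᶠ[𝓝 0] fun z => deriv (fun z => g (r * z)) z - deriv (gP t) z := by
      filter_upwards [hball] with z hz
      rw [hGdef]
      exact deriv_fun_sub (dil_hasDeriv hg hr0 hr1 hz).differentiableAt (gP_diffAt h0 h1 hz)
    exact ((dil_hasDeriv2 hg hr0 hr1).sub (gP_hasDeriv2 h0 h1)).congr_of_eventuallyEq e
  have hGd : ∀ᶠ z in 𝓝 (0 : ℂ), DifferentiableAt ℂ G z := by
    filter_upwards [hball] with z hz
    rw [hGdef]
    exact (dil_hasDeriv hg hr0 hr1 hz).differentiableAt.sub (gP_diffAt h0 h1 hz)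
  have hhd : ∀ᶠ z in 𝓝 (0 : ℂ), DifferentiableAt ℂ (hh t c) z := by
    filter_upwards [hball] with z hz
    exact (hh_dcc t c).differentiableAt isOpen_ball (by simpa using hz)
  have hD := deriv2_mul hhd hGd (hh_hasDeriv0 c h0.le h1.le) (hh_hasDeriv2 c h0.le h1.le) hG1 hG2
  rw [hD.deriv, hG0, hh_zero] at hC
  -- rewrite the integral
  have e : ∫ θ in (0 : ℝ)..2 * Real.pi, (hh t c (Complex.exp (I * θ)) * G (Complex.exp (I * θ))) *
        Complex.exp (-(2 * (I * θ))) =
      ∫ θ in (0 : ℝ)..2 * Real.pi, ((RR t c θ : ℂ) + (JJ t c θ : ℂ) * I) * G (Complex.exp (I * θ)) := by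
    apply intervalIntegral.integral_congr
    intro θ hθ
    rw [Set.uIcc_of_le (by positivity)] at hθ
    have := hh_bd c h0 h1 hθ.1 hθ.2
    simp only
    rw [← this]
    ring
  rw [e] at hC
  have hGcont : Continuous (fun θ : ℝ => G (Complex.exp (I * θ))) := by
    have h1 : ContinuousOn G (closedBall 0 1) := by
      have := hGdcc.continuousOn
      rwa [closure_ball _ (by norm_num)] at this
    apply h1.comp_continuous (by fun_prop)
    intro θ
    rw [mem_closedBall_zero_iff, mul_comm, Complex.norm_exp_ofReal_mul_I]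
  have hint : IntervalIntegrable (fun θ : ℝ => ((RR t c θ : ℂ) + (JJ t c θ : ℂ) * I) * G (Complex.exp (I * θ)))
      volume 0 (2 * Real.pi) := by
    apply Continuous.intervalIntegrable
    exact (((Complex.continuous_ofReal.comp (RR_cont t c))).add
      ((Complex.continuous_ofReal.comp (JJ_cont t c)).mul continuous_const)).mul hGcont
  have e2 := Complex.reCLM.intervalIntegral_comp_comm hint
  rw [hC] at e2
  have hre : ∀ θ : ℝ, Complex.reCLM (((RR t c θ : ℂ) + (JJ t c θ : ℂ) * I) * G (Complex.exp (I * θ))) =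
      RR t c θ * (G (Complex.exp (I * θ))).re - JJ t c θ * (G (Complex.exp (I * θ))).im := by
    intro θ
    simp [Complex.mul_re]
  simp_rw [hre] at e2
  have hGre : ∀ θ : ℝ, (G (Complex.exp (I * θ))).re = (g (r * Complex.exp (I * θ))).re - (gP t (Complex.exp (I * θ))).re := by
    intro θ; rw [hGdef]; simp
  have hGim : ∀ θ : ℝ, (G (Complex.exp (I * θ))).im = (g (r * Complex.exp (I * θ))).im - (gP t (Complex.exp (I * θ))).im := by
    intro θ; rw [hGdef]; simp
  have hmono : ∫ θ in (0 : ℝ)..2 * Real.pi, (RR t c θ * (G (Complex.exp (I * θ))).re -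
        JJ t c θ * (G (Complex.exp (I * θ))).im) ≤
      ∫ θ in (0 : ℝ)..2 * Real.pi, (Real.log (M * t / r) * RR t c θ - Th g r θ * JJ t c θ) := by
    apply intervalIntegral.integral_mono_on (by positivity)
    · apply Continuous.intervalIntegrable
      exact ((RR_cont t c).mul (Complex.continuous_re.comp hGcont)).sub
        ((JJ_cont t c).mul (Complex.continuous_im.comp hGcont))
    · apply Continuous.intervalIntegrable
      have := RR_cont t c
      have := JJ_cont t c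
      have : Continuous (Th g r) :=
        continuous_iff_continuousAt.mpr fun θ => (Th_hasDeriv hg hr0 hr1 θ).continuousAt
      fun_prop
    · intro θ hθ
      rw [hGre, hGim]
      rcases le_or_gt (Real.sin (θ / 2) ^ 2) t with hv | hv
      · have hJ : JJ t c θ = 0 := by
          unfold JJ
          rw [Real.sqrt_eq_zero_of_nonpos (by linarith)]; ring
        rw [hJ, gP_near h0 h1 hv, zero_mul, mul_zero, sub_zero, sub_zero, mul_comm (Real.log _)]
        apply mul_le_mul_of_nonneg_left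
        · have hz := circ_mem hr0 hr1 θ
          have hn := circ_norm hr0 θ
          have h3 := hbd _ hz (by
            intro h
            rw [h] at hn
            simp at hn
            linarith)
          rw [hn] at h3
          have h4 : Real.log (M * t / r) = Real.log (M / r) + Real.log t := by
            rw [← Real.log_mul (by positivity) (by positivity)]
            congr 1
            ring
          rw [h4]
          linarith
        · unfold RR
          have h5 : Real.cos θ = 1 - 2 * Real.sin (θ / 2) ^ 2 := by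
            have h3 := Real.cos_two_mul' (θ / 2)
            have h4 := Real.sin_sq_add_cos_sq (θ / 2)
            rw [show 2 * (θ / 2) = θ by ring] at h3
            linarith
          have h6 : 0 ≤ Real.cos θ - c := by rw [h5]; linarith
          positivity
      · have hR : RR t c θ = 0 := by
          unfold RR
          rw [Real.sqrt_eq_zero_of_nonpos (by linarith)]; ring
        rw [hR, gP_far h0 h1 hθ.1 hθ.2 hv.le]
        unfold Th
        apply le_of_eq
        ring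
  rw [e2] at hmono
  rw [intervalIntegral.integral_sub] at hmono
  · rw [intervalIntegral.integral_const_mul, intR c h0 h1] at hmono
    have hJT := JTh_nonneg hG hg hstar hr0 hr1 (t := t) (c := c)
    have e5 : ∀ w : ℂ, Complex.reCLM (2 * (Real.pi : ℂ) * (w / 2)) = 2 * Real.pi * (w.re / 2) := by
      intro w
      have : (2 * (Real.pi : ℂ) * (w / 2)) = ((Real.pi : ℝ) : ℂ) * w := by ring
      rw [this, Complex.reCLM_apply, Complex.re_ofReal_mul]
      ring
    rw [e5] at hmono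
    have hpi := Real.pi_pos
    have e6 : (2 * (2 * (t : ℂ) * (2 - 2 * (c : ℂ) - (t : ℂ))) * 0 +
        2 * (2 * ((t : ℂ) - c)) * (r * deriv g 0 - 2 * (1 - t)) +
        1 * (r ^ 2 * deriv (deriv g) 0 - 2 * (1 - t) * (1 - 3 * t))) =
        ((2 : ℝ) : ℂ) * (2 * ((t : ℂ) - c) * (r * deriv g 0 - 2 * (1 - t)) +
      (r ^ 2 * deriv (deriv g) 0 / 2 - (1 - t) * (1 - 3 * t))) := by
      push_cast; ring
    rw [e6, Complex.re_ofReal_mul] at hmono
    set X := (2 * ((t : ℂ) - c) * (r * deriv g 0 - 2 * (1 - t)) +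
      (r ^ 2 * deriv (deriv g) 0 / 2 - (1 - t) * (1 - 3 * t))).re
    have : 2 * Real.pi * X ≤ 2 * Real.pi * (2 * t * (2 - 2 * c - t) * Real.log (M * t / r)) := by
      nlinarith
    exact le_of_mul_le_mul_left this (by positivity)
  · exact ((continuous_const.mul (RR_cont t c))).intervalIntegrable _ _
  · apply Continuous.intervalIntegrable
    have := JJ_cont t c
    have : Continuous (Th g r) :=
      continuous_iff_continuousAt.mpr fun θ => (Th_hasDeriv hg hr0 hr1 θ).continuousAt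
    fun_prop

theorem cert {t c M : ℝ} (h0 : 0 < t) (h1 : t < 1) (hc : c ≤ 1 - 2 * t) (hG : 0 ≤ Gam t c 1)
    (hM : 0 < M) {g : ℂ → ℂ} (hg : DifferentiableOn ℂ g (ball 0 1)) (hg0 : g 0 = 0)
    (hstar : ∀ z ∈ ball (0 : ℂ) 1, 0 ≤ (1 + z * deriv g z).re)
    (hbd : ∀ z ∈ ball (0 : ℂ) 1, z ≠ 0 → (g z).re ≤ Real.log (M / ‖z‖)) :
    2 * (t - c) * ((deriv g 0).re - 2 * (1 - t)) +
      ((deriv (deriv g) 0 / 2).re - (1 - t) * (1 - 3 * t)) ≤
     2 * t * (2 - 2 * c - t) * Real.log (M * t) := by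
  have key : ∀ r ∈ Set.Ioo (0 : ℝ) 1, 2 * (t - c) * (r * (deriv g 0).re - 2 * (1 - t)) +
      (r ^ 2 * (deriv (deriv g) 0 / 2).re - (1 - t) * (1 - 3 * t)) ≤
     2 * t * (2 - 2 * c - t) * Real.log (M * t / r) := by
    intro r hr
    have := cert_r h0 h1 hc hG hM hg hg0 hstar hbd hr.1 hr.2
    have e : (2 * ((t : ℂ) - c) * (r * deriv g 0 - 2 * (1 - t)) +
      (r ^ 2 * deriv (deriv g) 0 / 2 - (1 - t) * (1 - 3 * t))) =
      ((2 * (t - c) * r : ℝ) : ℂ) * deriv g 0 + ((r ^ 2 : ℝ) : ℂ) * (deriv (deriv g) 0 / 2) -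
        ((2 * (t - c) * (2 * (1 - t)) + (1 - t) * (1 - 3 * t) : ℝ) : ℂ) := by
      push_cast; ring
    rw [e, Complex.sub_re, Complex.add_re, Complex.re_ofReal_mul, Complex.re_ofReal_mul, Complex.ofReal_re] at this
    linarith
  have hcl : ContinuousWithinAt (fun r : ℝ => 2 * (t - c) * (r * (deriv g 0).re - 2 * (1 - t)) +
      (r ^ 2 * (deriv (deriv g) 0 / 2).re - (1 - t) * (1 - 3 * t))) (Set.Ioo (0 : ℝ) 1) 1 := by
    apply Continuous.continuousWithinAt
    fun_prop
  have hcr : ContinuousWithinAt (fun r : ℝ => 2 * t * (2 - 2 * c - t) * Real.log (M * t / r)) (Set.Ioo (0 : ℝ) 1) 1 := by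
    apply ContinuousAt.continuousWithinAt
    apply ContinuousAt.mul continuousAt_const
    apply ContinuousAt.log
    · apply ContinuousAt.div continuousAt_const continuousAt_id (by norm_num)
    · simp
      exact ⟨hM.ne', h0.ne'⟩
  have hne : (𝓝[Set.Ioo (0 : ℝ) 1] (1 : ℝ)).NeBot := by
    rw [← mem_closure_iff_nhdsWithin_neBot, closure_Ioo (by norm_num)]
    simp
  have := le_of_tendsto_of_tendsto hcl hcr (eventually_mem_nhdsWithin.mono fun r hr => key r hr)
  simpa using this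

end Pool.Agent.Helper974.StarP.Cert
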