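import Mathlib
import Pool.Agent.Helper974.StarP.Geom

set_option autoImplicit false

namespace Pool.Agent.Helper974.StarP.Red

open Complex Filter Topology Metric Set Pool.Agent.Helper974.StarP.Geom

/-- the class of logarithms -/
structure LogClass (M : ℝ) (g : ℂ → ℂ) : Prop where
  diff : DifferentiableOn ℂ g (ball 0 1)
  zero : g 0 = 0
  star : ∀ z ∈ ball (0 : ℂ) 1, 0 ≤ (1 + z * deriv g z).re
  bdd : ∀ z ∈ ball (0 : ℂ) 1, z ≠ 0 → (g z).re ≤ Real.log (M / ‖z‖)

/-- third coefficient through the logarithm -/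
lemma third_coeff {f g : ℂ → ℂ} (hg : DifferentiableOn ℂ g (ball 0 1)) (hg0 : g 0 = 0)
    (hfg : ∀ z ∈ ball (0 : ℂ) 1, f z = z * Complex.exp (g z)) :
    iteratedDeriv 3 f 0 / 6 = deriv (deriv g) 0 / 2 + (deriv g 0) ^ 2 / 2 := by
  have hb : ball (0 : ℂ) 1 ∈ 𝓝 (0 : ℂ) := isOpen_ball.mem_nhds (by simp)
  have hopen : ∀ z ∈ ball (0 : ℂ) 1, ball (0 : ℂ) 1 ∈ 𝓝 z := fun z hz => isOpen_ball.mem_nhds hz
  have hg' := hg.deriv isOpen_ball
  have hg'' := hg'.deriv isOpen_ball
  have d0 : ∀ z ∈ ball (0 : ℂ) 1, HasDerivAt g (deriv g z) z := fun z hz =>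
    (hg.differentiableAt (hopen z hz)).hasDerivAt
  have d1 : ∀ z ∈ ball (0 : ℂ) 1, HasDerivAt (deriv g) (deriv (deriv g) z) z := fun z hz =>
    (hg'.differentiableAt (hopen z hz)).hasDerivAt
  have d2 : ∀ z ∈ ball (0 : ℂ) 1, HasDerivAt (deriv (deriv g)) (deriv (deriv (deriv g)) z) z := fun z hz =>
    (hg''.differentiableAt (hopen z hz)).hasDerivAt
  have e0 : ∀ z ∈ ball (0 : ℂ) 1, HasDerivAt f ((1 + z * deriv g z) * Complex.exp (g z)) z := by
    intro z hz
    have h1 := (hasDerivAt_id z).mul (d0 z hz).cexp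
    have h2 : f =ᶠ[𝓝 z] fun z => z * Complex.exp (g z) := by
      filter_upwards [hopen z hz] with w hw using hfg w hw
    have h3 := h1.congr_of_eventuallyEq (f₁ := f) h2
    convert! h3 using 1
    simp
    ring
  have e1 : ∀ z ∈ ball (0 : ℂ) 1, HasDerivAt (deriv f)
      ((2 * deriv g z + z * deriv (deriv g) z + z * deriv g z ^ 2) * Complex.exp (g z)) z := by
    intro z hz
    have h2 : deriv f =ᶠ[𝓝 z] fun z => (1 + z * deriv g z) * Complex.exp (g z) := by
      filter_upwards [hopen z hz] with w hw using (e0 w hw).deriv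
    have h1 := ((((hasDerivAt_id z).mul (d1 z hz)).const_add 1).mul (d0 z hz).cexp)
    have h3 := h1.congr_of_eventuallyEq (f₁ := deriv f) h2
    convert! h3 using 1
    simp
    ring
  have e2 : HasDerivAt (deriv (deriv f)) (3 * deriv (deriv g) 0 + 3 * deriv g 0 ^ 2) 0 := by
    have h2 : deriv (deriv f) =ᶠ[𝓝 0] fun z => (2 * deriv g z + z * deriv (deriv g) z + z * deriv g z ^ 2) * Complex.exp (g z) := by
      filter_upwards [hb] with w hw using (e1 w hw).deriv
    have h00 : (0 : ℂ) ∈ ball (0 : ℂ) 1 := by simp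
    have h1 := (((((d1 0 h00).const_mul 2).add ((hasDerivAt_id (0 : ℂ)).mul (d2 0 h00))).add
      ((hasDerivAt_id (0 : ℂ)).mul ((d1 0 h00).pow 2)))).mul (d0 0 h00).cexp
    have h3 := h1.congr_of_eventuallyEq (f₁ := deriv (deriv f)) h2
    convert! h3 using 1
    simp [hg0]
    ring
  have h4 : iteratedDeriv 3 f 0 = deriv (deriv (deriv f)) 0 := by
    rw [iteratedDeriv_eq_iterate]; rfl
  rw [h4, e2.deriv]
  ring

/-- existence of the logarithm for a bounded starlike function -/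
lemma exists_log {M : ℝ} {f : ℂ → ℂ} (hd : DifferentiableOn ℂ f (ball 0 1)) (hinj : Set.InjOn f (ball 0 1))
    (h0 : f 0 = 0) (h1 : deriv f 0 = 1)
    (hstar : ∀ w ∈ f '' ball 0 1, ∀ s : ℝ, 0 ≤ s → s ≤ 1 → (s : ℂ) * w ∈ f '' ball 0 1)
    (hM : ∀ z ∈ ball (0 : ℂ) 1, ‖f z‖ ≤ M) :
    ∃ g, LogClass M g ∧ ∀ z ∈ ball (0 : ℂ) 1, f z = z * Complex.exp (g z) := by
  have h00 : (0 : ℂ) ∈ ball (0 : ℂ) 1 := by simp
  have hb : ball (0 : ℂ) 1 ∈ 𝓝 (0 : ℂ) := isOpen_ball.mem_nhds h00
  set k : ℂ → ℂ := dslope f 0 with hk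
  have hkd : DifferentiableOn ℂ k (ball 0 1) := by
    rw [hk]
    exact (Complex.differentiableOn_dslope hb).mpr hd
  have hfk : ∀ z : ℂ, f z = z * k z := by
    intro z
    have := sub_smul_dslope f 0 z
    rw [h0, sub_zero, sub_zero, smul_eq_mul] at this
    exact this.symm
  have hk0 : k 0 = 1 := by rw [hk, dslope_same, h1]
  have hkne : ∀ z ∈ ball (0 : ℂ) 1, k z ≠ 0 := by
    intro z hz hkz
    by_cases hz0 : z = 0
    · rw [hz0, hk0] at hkz; exact one_ne_zero hkz
    · have : f z = f 0 := by rw [hfk z, hkz, mul_zero, h0]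
      exact hz0 (hinj hz h00 this)
  have hqd : DifferentiableOn ℂ (fun z => deriv k z / k z) (ball 0 1) :=
    (hkd.deriv isOpen_ball).div hkd hkne
  obtain ⟨g, hg0, hg⟩ := hqd.isExactOn_ball.with_val_at 0 0
  have hgd : DifferentiableOn ℂ g (ball 0 1) := fun z hz => (hg z hz).differentiableAt.differentiableWithinAt
  have hexp : ∀ z ∈ ball (0 : ℂ) 1, k z = Complex.exp (g z) := by
    have hc : ∀ z ∈ ball (0 : ℂ) 1, HasDerivAt (fun z => k z * Complex.exp (-g z)) 0 z := by
      intro z hz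
      have a1 : HasDerivAt k (deriv k z) z := (hkd.differentiableAt (isOpen_ball.mem_nhds hz)).hasDerivAt
      have a2 := a1.mul (hg z hz).neg.cexp
      convert! a2 using 1
      have := hkne z hz
      simp only [Pi.neg_apply]
      field_simp
      ring
    have hconst : ∀ z ∈ ball (0 : ℂ) 1, (fun z => k z * Complex.exp (-g z)) z = (fun z => k z * Complex.exp (-g z)) 0 := by
      intro z hz
      apply (convex_ball (0 : ℂ) 1).is_const_of_fderivWithin_eq_zero (𝕜 := ℂ)
        (f := fun z => k z * Complex.exp (-g z)) _ _ hz h00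
      · intro w hw
        exact (hc w hw).differentiableAt.differentiableWithinAt
      · intro w hw
        rw [fderivWithin_of_isOpen isOpen_ball hw]
        have := (hc w hw).hasFDerivAt.fderiv
        rw [this]
        ext
        simp
    intro z hz
    have := hconst z hz
    simp only [hk0, hg0, neg_zero, Complex.exp_zero, mul_one] at this
    have h5 : Complex.exp (-g z) * Complex.exp (g z) = 1 := by rw [← Complex.exp_add]; simp
    calc k z = k z * (Complex.exp (-g z) * Complex.exp (g z)) := by rw [h5, mul_one]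
      _ = (k z * Complex.exp (-g z)) * Complex.exp (g z) := by ring
      _ = Complex.exp (g z) := by rw [this, one_mul]
  refine ⟨g, ⟨hgd, hg0, ?_, ?_⟩, ?_⟩
  · intro z hz
    rw [(hg z hz).deriv]
    by_cases hz0 : z = 0
    · rw [hz0]; simp
    · have h6 := star_re_nonneg hd hinj h0 hstar hz
      have h7 : deriv f z = k z + z * deriv k z := by
        have a1 : HasDerivAt k (deriv k z) z := (hkd.differentiableAt (isOpen_ball.mem_nhds hz)).hasDerivAt
        have a2 := (hasDerivAt_id z).mul a1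
        have a3 : f = fun z => z * k z := funext hfk
        have a4 : HasDerivAt f (1 * k z + id z * deriv k z) z := by
          rw [a3]; exact a2
        rw [a4.deriv]; simp
      have h8 : z * deriv f z / f z = 1 + z * (deriv k z / k z) := by
        rw [h7, hfk z]
        have := hkne z hz
        field_simp
      rw [← h8]
      exact h6
  · intro z hz hz0
    have h9 : ‖f z‖ = ‖z‖ * Real.exp (g z).re := by
      rw [hfk z, hexp z hz, norm_mul, Complex.norm_exp]
    have h10 := hM z hz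
    have hzp : 0 < ‖z‖ := norm_pos_iff.mpr hz0
    rw [h9] at h10
    have hMp : 0 < M := lt_of_lt_of_le (mul_pos hzp (Real.exp_pos _)) h10
    rw [Real.le_log_iff_exp_le (by positivity), le_div_iff₀ hzp]
    linarith
  · intro z hz
    rw [hfk z, hexp z hz]

/-- rotations -/
lemma LogClass.rot {M : ℝ} {g : ℂ → ℂ} (h : LogClass M g) {ω : ℂ} (hω : ‖ω‖ = 1) :
    LogClass M (fun z => g (ω * z)) ∧ deriv (fun z => g (ω * z)) 0 = ω * deriv g 0 ∧
      deriv (deriv (fun z => g (ω * z))) 0 = ω ^ 2 * deriv (deriv g) 0 := by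
  have hmem : ∀ z ∈ ball (0 : ℂ) 1, ω * z ∈ ball (0 : ℂ) 1 := by
    intro z hz
    rw [mem_ball_zero_iff, norm_mul, hω, one_mul]
    simpa using hz
  have hder : ∀ (G : ℂ → ℂ), DifferentiableOn ℂ G (ball 0 1) → ∀ z ∈ ball (0 : ℂ) 1,
      HasDerivAt (fun z => G (ω * z)) (ω * deriv G (ω * z)) z := by
    intro G hG z hz
    have h1 : HasDerivAt G (deriv G (ω * z)) (ω * z) :=
      (hG.differentiableAt (isOpen_ball.mem_nhds (hmem z hz))).hasDerivAt
    have h2 : HasDerivAt (fun z : ℂ => ω * z) ω z := by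
      simpa using (hasDerivAt_id z).const_mul ω
    have h3 := h1.comp z h2
    convert! h3 using 1
    ring
  have h00 : (0 : ℂ) ∈ ball (0 : ℂ) 1 := by simp
  refine ⟨⟨?_, ?_, ?_, ?_⟩, ?_, ?_⟩
  · intro z hz
    exact (hder g h.diff z hz).differentiableAt.differentiableWithinAt
  · simp [h.zero]
  · intro z hz
    rw [(hder g h.diff z hz).deriv]
    have := h.star _ (hmem z hz)
    convert this using 2
    ring
  · intro z hz hz0
    have hω0 : ω ≠ 0 := by rintro rfl; simp at hω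
    have := h.bdd _ (hmem z hz) (mul_ne_zero hω0 hz0)
    rwa [norm_mul, hω, one_mul] at this
  · rw [(hder g h.diff 0 h00).deriv, mul_zero]
  · have e : deriv (fun z => g (ω * z)) =ᶠ[𝓝 0] fun z => ω * deriv g (ω * z) := by
      filter_upwards [isOpen_ball.mem_nhds h00] with z hz
      exact (hder g h.diff z hz).deriv
    rw [e.deriv_eq]
    have := (hder (deriv g) (h.diff.deriv isOpen_ball) 0 h00).const_mul ω
    rw [this.deriv, mul_zero]
    ring

/-- reduction of the bound on `|a₃|` to the real functional -/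
lemma norm_le_of_re {M P : ℝ} (H : ∀ g, LogClass M g → 0 ≤ (deriv g 0).re →
      2 * ((deriv g 0).re / 2) ^ 2 + (deriv (deriv g) 0 / 2).re ≤ P) {g : ℂ → ℂ} (hg : LogClass M g) :
    ‖deriv (deriv g) 0 / 2 + deriv g 0 ^ 2 / 2‖ ≤ P := by
  set A := deriv (deriv g) 0 / 2 + deriv g 0 ^ 2 / 2 with hA
  -- choose ω with ω² A = |A|
  obtain ⟨ω, hω1, hω2, hω3⟩ : ∃ ω : ℂ, ‖ω‖ = 1 ∧ ω ^ 2 * A = ‖A‖ ∧ 0 ≤ (ω * deriv g 0).re := by
    have h1 : ‖Complex.exp ((-(Complex.arg A) / 2 : ℝ) * I)‖ = 1 := Complex.norm_exp_ofReal_mul_I _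
    have h2 : Complex.exp ((-(Complex.arg A) / 2 : ℝ) * I) ^ 2 * A = ‖A‖ := by
      have hA' := Complex.norm_mul_exp_arg_mul_I A
      rw [← Complex.exp_nat_mul]
      have : Complex.exp (((2 : ℕ) : ℂ) * ((-(Complex.arg A) / 2 : ℝ) * I)) * Complex.exp (Complex.arg A * I) = 1 := by
        rw [← Complex.exp_add, ← Complex.exp_zero]
        congr 1
        push_cast
        ring
      linear_combination (‖A‖ : ℂ) * this - Complex.exp (((2 : ℕ) : ℂ) * ((-(Complex.arg A) / 2 : ℝ) * I)) * hA'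
    rcases le_total 0 (Complex.exp ((-(Complex.arg A) / 2 : ℝ) * I) * deriv g 0).re with h3 | h3
    · exact ⟨_, h1, h2, h3⟩
    · refine ⟨-Complex.exp ((-(Complex.arg A) / 2 : ℝ) * I), by rw [norm_neg, h1], by rw [neg_sq, h2], ?_⟩
      rw [neg_mul, Complex.neg_re]
      linarith
  obtain ⟨hr1, hr2, hr3⟩ := hg.rot hω1
  have h4 := H _ hr1 (by rw [hr2]; exact hω3)
  rw [hr2, hr3] at h4
  have h5 : (‖A‖ : ℝ) = (ω ^ 2 * deriv (deriv g) 0 / 2).re + ((ω * deriv g 0) ^ 2 / 2).re := by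
    rw [← Complex.add_re]
    have : ω ^ 2 * deriv (deriv g) 0 / 2 + (ω * deriv g 0) ^ 2 / 2 = ω ^ 2 * A := by rw [hA]; ring
    rw [this, hω2, Complex.ofReal_re]
  have h6 : ((ω * deriv g 0) ^ 2 / 2).re ≤ 2 * ((ω * deriv g 0).re / 2) ^ 2 := by
    have : (ω * deriv g 0) ^ 2 / 2 = ((1 / 2 : ℝ) : ℂ) * ((ω * deriv g 0) ^ 2) := by push_cast; ring
    rw [this, Complex.re_ofReal_mul, pow_two, Complex.mul_re]
    nlinarith [sq_nonneg (ω * deriv g 0).im]
  linarith

end Pool.Agent.Helper974.StarP.Red
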