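import Mathlib
import Pool.Agent.Helper974.StarP.Cert4
import Pool.Agent.Helper974.StarP.Red

set_option autoImplicit false

namespace Pool.Agent.Helper974.StarP.Pick

open Complex Filter Topology Metric Set Pool.Agent.Helper974.StarP.Sigma Pool.Agent.Helper974.StarP.Cert
  Pool.Agent.Helper974.StarP.Red

/-- Koebe function -/
noncomputable def kap (z : ℂ) : ℂ := z / (1 - z) ^ 2

lemma one_sub_ne {z : ℂ} (hz : ‖z‖ < 1) : 1 - z ≠ 0 := by
  intro h
  have : z = 1 := by linear_combination -h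
  rw [this] at hz
  simp at hz

lemma kap_inj {z w : ℂ} (hz : ‖z‖ < 1) (hw : ‖w‖ < 1) (h : kap z = kap w) : z = w := by
  unfold kap at h
  have h1 := one_sub_ne hz
  have h2 := one_sub_ne hw
  rw [div_eq_div_iff (pow_ne_zero 2 h1) (pow_ne_zero 2 h2)] at h
  have h3 : (z - w) * (1 - z * w) = 0 := by linear_combination h
  rcases mul_eq_zero.mp h3 with h4 | h4
  · linear_combination h4
  · exfalso
    have h5 : z * w = 1 := by linear_combination -h4
    have h6 : ‖z‖ * ‖w‖ = 1 := by rw [← norm_mul, h5, norm_one]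
    nlinarith [norm_nonneg z, norm_nonneg w]

/-- a real number `w` with `w = -ρ (1 - t w)^2` inside the disc of radius `1/t` is real. -/
lemma real_of_kap {t ρ : ℝ} (ht : 0 < t) (hρ : 0 < ρ) {v : ℂ} (hv : ‖v‖ < 1 / t)
    (h : v = -ρ * (1 - t * v) ^ 2) : v.im = 0 := by
  by_contra him
  have hre := congrArg Complex.re h
  have him' := congrArg Complex.im h
  simp [pow_two, Complex.mul_re, Complex.mul_im] at hre him'
  -- im: v.im = 2ρ t v.im (1 - t v.re) → 1 = 2ρ t (1 - t v.re)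
  have h1 : v.im * (1 - 2 * ρ * t * (1 - t * v.re)) = 0 := by linear_combination him'
  have h2 : 1 - 2 * ρ * t * (1 - t * v.re) = 0 := (mul_eq_zero.mp h1).resolve_left him
  -- re: v.re = -ρ((1 - t v.re)^2 - t² v.im²)
  have h3 : ρ * (t ^ 2 * (v.re ^ 2 + v.im ^ 2) - 1) = 0 := by
    linear_combination (-1 : ℝ) * hre + v.re * h2
  have h4 : t ^ 2 * (v.re ^ 2 + v.im ^ 2) - 1 = 0 := (mul_eq_zero.mp h3).resolve_left hρ.ne'
  have h5 : ‖v‖ ^ 2 = v.re ^ 2 + v.im ^ 2 := by
    rw [Complex.sq_norm, Complex.normSq_apply]; ring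
  rw [← h5] at h4
  have h6 : t * ‖v‖ < 1 := by rw [lt_div_iff₀ ht] at hv; linarith
  nlinarith [norm_nonneg v, mul_nonneg ht.le (norm_nonneg v)]

/-- failing the slit plane condition -/
lemma not_slit {k : ℂ} (h : 1 + 4 * k ∉ slitPlane) : ∃ ρ : ℝ, 1 / 4 ≤ ρ ∧ k = -(ρ : ℂ) := by
  rw [Complex.mem_slitPlane_iff] at h
  push Not at h
  obtain ⟨h1, h2⟩ := h
  simp at h1 h2
  refine ⟨-k.re, by linarith, ?_⟩
  apply Complex.ext
  · simp
  · simp [h2]

lemma slit_of_real {k : ℂ} {x : ℝ} (hk : k = (x : ℂ)) (hx : x ≤ -(1 / 4)) : 1 + 4 * k ∉ slitPlane := by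
  rw [Complex.mem_slitPlane_iff]
  push Not
  rw [hk]
  constructor
  · simp; linarith
  · simp

/-- The Koebe image of the disc. -/
lemma kap_slit {t : ℝ} (ht : 0 < t) (ht1 : t ≤ 1) {z : ℂ} (hz : ‖z‖ < 1) :
    1 + 4 * (t * kap z) ∈ slitPlane := by
  by_contra hcon
  obtain ⟨ρ₀, hρ₀, hk⟩ := not_slit hcon
  have htC : (t : ℂ) ≠ 0 := by exact_mod_cast ht.ne'
  set ρ := ρ₀ / t with hρ
  have hρ1 : 1 / 4 ≤ ρ := by
    rw [hρ, le_div_iff₀ ht]; linarith
  have h6 : kap z = -(ρ : ℂ) := by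
    rw [hρ]; push_cast
    field_simp
    linear_combination hk
  have h1z := one_sub_ne hz
  have h7 : z = -(ρ : ℂ) * (1 - ((1 : ℝ) : ℂ) * z) ^ 2 := by
    unfold kap at h6
    rw [div_eq_iff (pow_ne_zero 2 h1z)] at h6
    push_cast
    rw [one_mul]
    exact h6
  have h8 := real_of_kap (t := 1) one_pos (by linarith) (by simpa using hz) h7
  have h9 : z = (z.re : ℂ) := by
    apply Complex.ext
    · simp
    · simp [h8]
  have h10 : z.re = -ρ * (1 - z.re) ^ 2 := by
    have h11 : ((z.re : ℝ) : ℂ) = ((-ρ * (1 - z.re) ^ 2 : ℝ) : ℂ) := by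
      push_cast
      rw [← h9]
      push_cast at h7
      rw [one_mul] at h7
      exact h7
    exact_mod_cast h11
  have h12 : -1 < z.re := by
    have := Complex.abs_re_le_norm z
    have := neg_abs_le z.re
    linarith
  nlinarith [sq_nonneg (1 - z.re), mul_pos (show 0 < 1 + z.re by linarith) (show 0 < 1 + z.re by linarith)]

lemma sqrt_unique {a b : ℂ} (ha : 0 < a.re) (hb : 0 < b.re) (h : a ^ 2 = b ^ 2) : a = b := by
  rcases sq_eq_sq_iff_eq_or_eq_neg.mp h with h | h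
  · exact h
  · rw [h, Complex.neg_re] at ha; linarith

lemma sqrt_sq (w : ℂ) : (w ^ (1 / 2 : ℂ)) ^ 2 = w := by
  rw [← Complex.cpow_nat_mul]; norm_num

lemma sqrt_re_pos {w : ℂ} (hw : w ∈ slitPlane) : 0 < (w ^ (1 / 2 : ℂ)).re := by
  have h0 : w ≠ 0 := Complex.slitPlane_ne_zero hw
  rw [Complex.cpow_def_of_ne_zero h0, Complex.exp_re]
  have h1 : (Complex.log w * (1 / 2)).im = Complex.arg w / 2 := by
    simp [Complex.mul_im, Complex.log_im]; ring
  rw [h1]
  apply mul_pos (Real.exp_pos _)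
  have h2 : Complex.arg w ≠ Real.pi := (Complex.mem_slitPlane_iff_arg.mp hw).1
  have h3 : Complex.arg w < Real.pi := lt_of_le_of_ne (Complex.arg_le_pi w) h2
  apply Real.cos_pos_of_mem_Ioo
  constructor
  · linarith [Complex.neg_pi_lt_arg w]
  · linarith

/-- square root of `1 + 4 t κ` -/
noncomputable def om (t : ℝ) (z : ℂ) : ℂ := (1 + 4 * (t * kap z)) ^ (1 / 2 : ℂ)

lemma om_sq (t : ℝ) (z : ℂ) : om t z ^ 2 = 1 + 4 * (t * kap z) := sqrt_sq _

lemma om_re {t : ℝ} (ht : 0 < t) (ht1 : t ≤ 1) {z : ℂ} (hz : ‖z‖ < 1) : 0 < (om t z).re :=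
  sqrt_re_pos (kap_slit ht ht1 hz)

lemma sg_eq_om {t : ℝ} (ht : 0 < t) (ht1 : t < 1) {z : ℂ} (hz : ‖z‖ < 1) :
    sg t z = (1 - z) * om t z := by
  have hpre : IsPreconnected (ball (0 : ℂ) 1) := (convex_ball (0 : ℂ) 1).isPreconnected
  have hsc : ContinuousOn (sg t) (ball 0 1) := (sg_contOn t).mono ball_subset_closedBall
  have hoc : ContinuousOn (fun z => (1 - z) * om t z) (ball 0 1) := by
    intro w hw
    have hw' : ‖w‖ < 1 := by simpa using hw
    apply ContinuousAt.continuousWithinAt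
    apply ContinuousAt.mul (by fun_prop)
    unfold om
    have hk : ContinuousAt (fun z => 1 + 4 * ((t : ℂ) * kap z)) w := by
      unfold kap
      have := pow_ne_zero 2 (one_sub_ne hw')
      fun_prop (disch := assumption)
    exact hk.cpow continuousAt_const (kap_slit ht ht1.le hw')
  have hsq : EqOn ((sg t) ^ 2) ((fun z => (1 - z) * om t z) ^ 2) (ball 0 1) := by
    intro w hw
    have hw' : ‖w‖ < 1 := by simpa using hw
    have h1 := one_sub_ne hw'
    simp only [Pi.pow_apply]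
    rw [sg_sq ht.le ht1.le, mul_pow, om_sq]
    unfold kap
    field_simp
    ring
  have hne : ∀ {w : ℂ}, w ∈ ball (0 : ℂ) 1 → (fun z => (1 - z) * om t z) w ≠ 0 := by
    intro w hw
    have hw' : ‖w‖ < 1 := by simpa using hw
    have h2 := om_re ht ht1.le hw'
    apply mul_ne_zero (one_sub_ne hw')
    intro h
    rw [h] at h2
    simp at h2
  have h0 : sg t 0 = (fun z => (1 - z) * om t z) 0 := by
    rw [sg_zero]
    simp [om, kap]
  exact hpre.eq_of_sq_eq hsc hoc hsq hne (show (0 : ℂ) ∈ ball (0 : ℂ) 1 by simp) h0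
    (show z ∈ ball (0 : ℂ) 1 by simpa using hz)

/-- Pick's function -/
noncomputable def fP (t : ℝ) (z : ℂ) : ℂ := z * Complex.exp (gP t z)

lemma om_add_ne {a : ℂ} (ha : 0 < a.re) : a + 1 ≠ 0 := by
  intro h
  have := congrArg Complex.re h
  simp at this
  linarith

lemma fP_eq {t : ℝ} (ht : 0 < t) (ht1 : t < 1) {z : ℂ} (hz : ‖z‖ < 1) :
    fP t z = (1 / t) * ((om t z - 1) / (om t z + 1)) := by
  have h1 := one_sub_ne hz
  have h2 := om_add_ne (om_re ht ht1.le hz)
  have h3 : DD t z = (1 - z) * (om t z + 1) / 2 := by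
    unfold DD; rw [sg_eq_om ht ht1 hz]; ring
  have hD : DD t z ≠ 0 := by
    rw [h3]
    exact div_ne_zero (mul_ne_zero h1 h2) (by norm_num)
  have h4 : Complex.exp (gP t z) = (DD t z ^ 2)⁻¹ := by
    unfold gP
    rw [show (-2 * Complex.log (DD t z)) = -((2 : ℕ) * Complex.log (DD t z)) by push_cast; ring,
      Complex.exp_neg, Complex.exp_nat_mul, Complex.exp_log hD]
  have htC : (t : ℂ) ≠ 0 := by exact_mod_cast ht.ne'
  have h5 := om_sq t z
  have h6 : kap z * (1 - z) ^ 2 = z := by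
    unfold kap; field_simp
  unfold fP
  rw [h4, h3]
  field_simp
  linear_combination (-(1 - z) ^ 2) * h5 - 4 * t * h6

lemma norm_cayley {a : ℂ} (ha : 0 < a.re) : ‖(a - 1) / (a + 1)‖ < 1 := by
  have h1 := om_add_ne ha
  rw [norm_div, div_lt_one (norm_pos_iff.mpr h1)]
  have h2 : ‖a - 1‖ ^ 2 < ‖a + 1‖ ^ 2 := by
    rw [Complex.sq_norm, Complex.sq_norm, Complex.normSq_apply, Complex.normSq_apply]
    simp
    nlinarith
  exact lt_of_pow_lt_pow_left₀ 2 (norm_nonneg _) h2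

lemma fP_norm {t : ℝ} (ht : 0 < t) (ht1 : t < 1) {z : ℂ} (hz : ‖z‖ < 1) : ‖fP t z‖ < 1 / t := by
  rw [fP_eq ht ht1 hz, norm_mul]
  have h1 : ‖(1 / (t : ℂ))‖ = 1 / t := by
    rw [norm_div, norm_one, Complex.norm_real, Real.norm_of_nonneg ht.le]
  rw [h1]
  have h2 := norm_cayley (om_re ht ht1.le hz)
  have h3 : 0 < 1 / t := by positivity
  nlinarith

/-- The Koebe-type equation. -/
lemma fP_koebe {t : ℝ} (ht : 0 < t) (ht1 : t < 1) {z : ℂ} (hz : ‖z‖ < 1) :
    fP t z / (1 - t * fP t z) ^ 2 = kap z := by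
  have h1 := om_add_ne (om_re ht ht1.le hz)
  have htC : (t : ℂ) ≠ 0 := by exact_mod_cast ht.ne'
  have h5 := om_sq t z
  rw [fP_eq ht ht1 hz]
  have h2 : 1 - (t : ℂ) * (1 / t * ((om t z - 1) / (om t z + 1))) = 2 / (om t z + 1) := by
    field_simp; ring
  rw [h2]
  have h3 : kap z = (om t z ^ 2 - 1) / (4 * t) := by
    rw [h5]; field_simp; ring
  rw [h3]
  field_simp
  ring

lemma fP_inj {t : ℝ} (ht : 0 < t) (ht1 : t < 1) : InjOn (fP t) (ball 0 1) := by
  intro z hz w hw h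
  have hz' : ‖z‖ < 1 := by simpa using hz
  have hw' : ‖w‖ < 1 := by simpa using hw
  apply kap_inj hz' hw'
  rw [← fP_koebe ht ht1 hz', ← fP_koebe ht ht1 hw', h]

lemma fP_image {t : ℝ} (ht : 0 < t) (ht1 : t < 1) {w : ℂ} :
    w ∈ fP t '' ball 0 1 ↔ ‖w‖ < 1 / t ∧ 1 + 4 * (w / (1 - t * w) ^ 2) ∈ slitPlane := by
  have htC : (t : ℂ) ≠ 0 := by exact_mod_cast ht.ne'
  constructor
  · rintro ⟨z, hz, rfl⟩
    have hz' : ‖z‖ < 1 := by simpa using hz
    refine ⟨fP_norm ht ht1 hz', ?_⟩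
    rw [fP_koebe ht ht1 hz']
    have := kap_slit one_pos le_rfl hz'
    simpa using this
  · rintro ⟨hw, hk⟩
    set k := w / (1 - t * w) ^ 2 with hkdef
    set q := (1 + 4 * k) ^ (1 / 2 : ℂ) with hq
    have hq2 : q ^ 2 = 1 + 4 * k := sqrt_sq _
    have hqre : 0 < q.re := sqrt_re_pos hk
    have hq1 := om_add_ne hqre
    set z := (q - 1) / (q + 1) with hz
    have hzn : ‖z‖ < 1 := norm_cayley hqre
    have hkz : kap z = k := by
      unfold kap
      have : 1 - z = 2 / (q + 1) := by rw [hz]; field_simp; ring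
      rw [this, hz]
      field_simp
      linear_combination hq2
    refine ⟨z, by simpa using hzn, ?_⟩
    rw [fP_eq ht ht1 hzn]
    have htw : ‖(t : ℂ) * w‖ < 1 := by
      rw [norm_mul, Complex.norm_real, Real.norm_of_nonneg ht.le]
      rw [lt_div_iff₀ ht] at hw
      linarith
    have h1 := one_sub_ne htw
    have h2 : om t z = (1 + t * w) / (1 - t * w) := by
      apply sqrt_unique (om_re ht ht1.le hzn)
      · have h3 : (1 + t * w) / (1 - t * w) = (1 + t * w) * (starRingEnd ℂ) (1 - t * w) / (Complex.normSq (1 - t * w) : ℂ) := by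
          rw [Complex.normSq_eq_conj_mul_self]
          have : (starRingEnd ℂ) (1 - t * w) ≠ 0 := by rw [Ne, map_eq_zero]; exact h1
          field_simp
        rw [h3, Complex.div_ofReal_re]
        apply div_pos _ (Complex.normSq_pos.mpr h1)
        have h4 : ((1 + (t : ℂ) * w) * (starRingEnd ℂ) (1 - t * w)).re = 1 - ‖(t : ℂ) * w‖ ^ 2 := by
          rw [Complex.sq_norm, Complex.normSq_apply]
          simp [Complex.mul_re]
          ring
        rw [h4]
        nlinarith [norm_nonneg ((t : ℂ) * w)]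
      · rw [om_sq, hkz, hkdef, div_pow]
        field_simp
        ring
    rw [h2]
    have h5 : (1 + t * w) / (1 - t * w) + 1 = 2 / (1 - t * w) := by field_simp; ring
    have h6 : (1 + t * w) / (1 - t * w) - 1 = 2 * (t * w) / (1 - t * w) := by field_simp; ring
    rw [h5, h6]
    field_simp

lemma fP_star {t : ℝ} (ht : 0 < t) (ht1 : t < 1) {w : ℂ} (hw : w ∈ fP t '' ball 0 1) {s : ℝ}
    (hs0 : 0 ≤ s) (hs1 : s ≤ 1) : (s : ℂ) * w ∈ fP t '' ball 0 1 := by
  rw [fP_image ht ht1] at hw ⊢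
  obtain ⟨hw1, hw2⟩ := hw
  have hsw : ‖(s : ℂ) * w‖ < 1 / t := by
    rw [norm_mul, Complex.norm_real, Real.norm_of_nonneg hs0]
    nlinarith [norm_nonneg w]
  refine ⟨hsw, ?_⟩
  by_contra hcon
  obtain ⟨ρ, hρ, hk⟩ := not_slit hcon
  set v := (s : ℂ) * w with hv
  have htv : ‖(t : ℂ) * v‖ < 1 := by
    rw [norm_mul, Complex.norm_real, Real.norm_of_nonneg ht.le]
    rw [lt_div_iff₀ ht] at hsw
    linarith
  have h1 := one_sub_ne htv
  have h2 : v = -(ρ : ℂ) * (1 - t * v) ^ 2 := by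
    rw [div_eq_iff (pow_ne_zero 2 h1)] at hk
    exact hk
  have hρ0 : 0 < ρ := by linarith
  have him := real_of_kap ht hρ0 hsw h2
  have hvr : v = (v.re : ℂ) := by
    apply Complex.ext
    · simp
    · simp [him]
  set x := v.re with hx
  have h3 : x = -ρ * (1 - t * x) ^ 2 := by
    have : (x : ℂ) = ((-ρ * (1 - t * x) ^ 2 : ℝ) : ℂ) := by
      push_cast
      rw [← hvr]
      exact h2
    exact_mod_cast this
  have htx : t * |x| < 1 := by
    have : ‖(t : ℂ) * v‖ = t * |x| := by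
      rw [hvr, norm_mul, Complex.norm_real, Complex.norm_real, Real.norm_of_nonneg ht.le, Real.norm_eq_abs]
    linarith
  have hx0 : x < 0 := by
    have h4 : 0 < 1 - t * x := by
      have := le_abs_self x
      nlinarith
    have : 0 < ρ * (1 - t * x) ^ 2 := by positivity
    linarith
  have hs : 0 < s := by
    rcases hs0.lt_or_eq with h | h
    · exact h
    · rw [← h] at hv
      rw [hv] at hx
      simp at hx
      linarith
  have hsC : (s : ℂ) ≠ 0 := by exact_mod_cast hs.ne'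
  set y := x / s with hy
  have hwy : w = (y : ℂ) := by
    rw [hy]; push_cast
    rw [← hvr, hv]
    field_simp
  have hyx : y ≤ x := by
    rw [hy, div_le_iff₀ hs]; nlinarith
  have hty : -1 < t * y := by
    rw [hwy, Complex.norm_real, Real.norm_eq_abs, lt_div_iff₀ ht] at hw1
    have := neg_abs_le y
    nlinarith
  apply slit_of_real (k := w / (1 - t * w) ^ 2) (x := y / (1 - t * y) ^ 2) _ _ hw2
  · rw [hwy]; push_cast; rfl
  · have h5 : 0 < 1 - t * y := by nlinarith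
    have h6 : 0 < 1 - t * x := by nlinarith
    rw [div_le_iff₀ (by positivity)]
    -- y ≤ -(1/4) (1 - t y)^2, from x ≤ -(1/4)(1-tx)^2
    have h7 : x ≤ -(1 / 4) * (1 - t * x) ^ 2 := by nlinarith [sq_nonneg (1 - t * x)]
    -- y (1 - t x)^2 ≤ x (1 - t y)^2
    have h8 : y * (1 - t * x) ^ 2 ≤ x * (1 - t * y) ^ 2 := by
      have h9 : 0 ≤ 1 - t * x * (t * y) := by
        have : t * x * (t * y) < 1 := by nlinarith
        linarith
      nlinarith [mul_nonneg (sub_nonneg.mpr hyx) h9]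
    have h10 : 0 < (1 - t * x) ^ 2 := by positivity
    have h11 : x * (1 - t * y) ^ 2 ≤ -(1 / 4) * (1 - t * x) ^ 2 * (1 - t * y) ^ 2 :=
      mul_le_mul_of_nonneg_right h7 (sq_nonneg _)
    have h12 : y * (1 - t * x) ^ 2 ≤ (-(1 / 4) * (1 - t * y) ^ 2) * (1 - t * x) ^ 2 := by linarith
    exact le_of_mul_le_mul_right h12 h10

lemma fP_diff {t : ℝ} (ht : 0 < t) (ht1 : t < 1) : DifferentiableOn ℂ (fP t) (ball 0 1) := by
  intro z hz
  have hz' : ‖z‖ < 1 := by simpa using hz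
  apply DifferentiableAt.differentiableWithinAt
  unfold fP
  exact differentiableAt_id.mul (gP_diffAt ht ht1 hz').cexp

lemma fP_zero (t : ℝ) : fP t 0 = 0 := by unfold fP; simp

lemma fP_deriv {t : ℝ} (ht : 0 < t) (ht1 : t < 1) : deriv (fP t) 0 = 1 := by
  have h := (hasDerivAt_id (0 : ℂ)).mul (gP_diffAt ht ht1 (z := 0) (by simp)).hasDerivAt.cexp
  have h2 : HasDerivAt (fP t) 1 0 := by
    unfold fP
    convert! h using 1
    simp [gP_zero]
  exact h2.deriv

lemma fP_third {t : ℝ} (ht : 0 < t) (ht1 : t < 1) :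
    iteratedDeriv 3 (fP t) 0 / 6 = ((3 - 8 * t + 5 * t ^ 2 : ℝ) : ℂ) := by
  rw [third_coeff (f := fP t) (g := gP t) (fun z hz => (gP_diffAt ht ht1 (by simpa using hz)).differentiableWithinAt)
    (gP_zero t) (fun z _ => rfl), (gP_hasDeriv0 ht ht1).deriv, (gP_hasDeriv2 ht ht1).deriv]
  push_cast
  ring

end Pool.Agent.Helper974.StarP.Pick
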